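import Pool.Agent.PFB.StmtsG

set_option autoImplicit false

/-!
# Squad PFB, row G_FIX: conjugates of an element by zooming elements form a finite set
-/

open Matrix Filter Topology

namespace Pool.Agent.PFB.H41

open Pool.Agent.PFS Pool.Agent.PFB

theorem fix (hCMF : CmfStmt) (hCMC : CmcStmt) (hPRP : PrpStmt) : FixStmt := by
  intro n C Γ h K w hw σ hσ hnu g s c p hg hs hc hp hlim
  obtain ⟨f1, f2, -, f4, f5, -, -, -⟩ := hCMF n C Γ h
  choose nu hnu0 hnu1 using hnu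
  -- bounds for the eigenvalues
  obtain ⟨c0, hc0, hc0'⟩ : ∃ c0 : ℝ, 0 < c0 ∧ ∀ i, c0 ≤ nu i := by
    have hpos : 0 ≤ ∑ i, (nu i)⁻¹ := Finset.sum_nonneg fun i _ => (inv_pos.2 (hnu0 i)).le
    refine ⟨(1 + ∑ i, (nu i)⁻¹)⁻¹, by positivity, fun i => ?_⟩
    have h1 : (nu i)⁻¹ ≤ ∑ i, (nu i)⁻¹ :=
      Finset.single_le_sum (f := fun i => (nu i)⁻¹) (fun j _ => (inv_pos.2 (hnu0 j)).le)
        (Finset.mem_univ i)
    rw [inv_le_comm₀ (by positivity) (hnu0 i)]
    linarith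
  obtain ⟨c1, hc1, hc1'⟩ : ∃ c1 : ℝ, 0 < c1 ∧ ∀ i, nu i ≤ c1 := by
    have hpos : 0 ≤ ∑ i, nu i := Finset.sum_nonneg fun i _ => (hnu0 i).le
    refine ⟨1 + ∑ i, nu i, by positivity, fun i => ?_⟩
    have h1 : nu i ≤ ∑ i, nu i :=
      Finset.single_le_sum (f := fun i => nu i) (fun j _ => (hnu0 j).le) (Finset.mem_univ i)
    linarith
  -- the points
  set P : ℕ → V n := fun m => ∑ i, c m i • w i with hP
  set Y : ℕ → V n := fun m => s m • act (g m) (P m) with hY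
  have hPC : ∀ m, P m ∈ C := fun m => hw.1.pos _ (hc m)
  have hYC : ∀ m, Y m ∈ C := fun m => (h.sact_mem_iff (hg m) (hs m)).2 (hPC m)
  have hσP : ∀ m, act σ (P m) = ∑ i, (c m i * nu i) • w i := by
    intro m
    rw [hP]
    simp only
    rw [CC.act_sum]
    refine Finset.sum_congr rfl fun i _ => ?_
    rw [CC.act_smul, hnu1, smul_smul]
  have hb1 : ∀ m, act σ (P m) - c0 • P m ∈ closure C := by
    intro m
    have e : act σ (P m) - c0 • P m = ∑ i, (c m i * (nu i - c0)) • w i := by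
      rw [hσP, hP]
      simp only
      rw [Finset.smul_sum, ← Finset.sum_sub_distrib]
      refine Finset.sum_congr rfl fun i _ => ?_
      rw [smul_smul, ← sub_smul]
      congr 1
      ring
    rw [e]
    exact h.toPCone.cl_sum fun i _ => h.toPCone.cl_smul (hw.1.cl i)
      (mul_nonneg (hc m i).le (sub_nonneg.2 (hc0' i)))
  have hb2 : ∀ m, c1 • P m - act σ (P m) ∈ closure C := by
    intro m
    have e : c1 • P m - act σ (P m) = ∑ i, (c m i * (c1 - nu i)) • w i := by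
      rw [hσP, hP]
      simp only
      rw [Finset.smul_sum, ← Finset.sum_sub_distrib]
      refine Finset.sum_congr rfl fun i _ => ?_
      rw [smul_smul, ← sub_smul]
      congr 1
      ring
    rw [e]
    exact h.toPCone.cl_sum fun i _ => h.toPCone.cl_smul (hw.1.cl i)
      (mul_nonneg (hc m i).le (sub_nonneg.2 (hc1' i)))
  have hcmp : ∀ m, Cmp C (c1 / c0) (act σ (P m)) (P m) := by
    intro m
    refine ⟨c0⁻¹, inv_pos.2 hc0, ?_, ?_⟩
    · have e : c0⁻¹ • act σ (P m) - P m = c0⁻¹ • (act σ (P m) - c0 • P m) := by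
        rw [smul_sub, smul_smul, inv_mul_cancel₀ hc0.ne', one_smul]
      rw [e]
      exact h.toPCone.cl_smul (hb1 m) (inv_pos.2 hc0).le
    · have e : (c1 / c0) • P m - c0⁻¹ • act σ (P m) = c0⁻¹ • (c1 • P m - act σ (P m)) := by
        rw [smul_sub, smul_smul, inv_mul_eq_div]
      rw [e]
      exact h.toPCone.cl_smul (hb2 m) (inv_pos.2 hc0).le
  have hM : 0 ≤ c1 / c0 := by positivity
  -- the conjugates
  set τ : ℕ → GL (Fin n) ℝ := fun m => g m * σ * (g m)⁻¹ with hτ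
  have hτΓ : ∀ m, τ m ∈ Γ := fun m =>
    Γ.mul_mem (Γ.mul_mem (hg m) hσ) (Γ.inv_mem (hg m))
  have hτY : ∀ m, act (τ m) (Y m) = s m • act (g m) (act σ (P m)) := by
    intro m
    rw [hτ, hY]
    simp only
    rw [CC.act_smul, CC.act_mul, CC.act_mul, CC.act_inv_act]
  have hcmp2 : ∀ m, Cmp C (c1 / c0) (act (τ m) (Y m)) (Y m) := by
    intro m
    rw [hτY, hY]
    exact (f5 _ _ _ _ _ (hs m) (hs m)).2 ((f4 _ _ _ _ (hg m)).2 (hcmp m))
  obtain ⟨M1, hM1, hev⟩ := hCMC n C h.toPCone Y (fun _ => p) p p hp hp hlim tendsto_const_nhds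
  have hM10 : 0 ≤ M1 := by linarith
  have hfin := hPRP n C Γ h p hp (M1 * (c1 / c0) * M1)
  have hev2 : ∀ᶠ m in atTop, τ m ∈ {γ : GL (Fin n) ℝ | γ ∈ Γ ∧
      Cmp C (M1 * (c1 / c0) * M1) (act γ p) p} := by
    filter_upwards [hev] with m hm
    refine ⟨hτΓ m, ?_⟩
    have hτp : act (τ m) p ∈ C := (h.act_mem_iff (hτΓ m)).2 hp
    have hτYC : act (τ m) (Y m) ∈ C := (h.act_mem_iff (hτΓ m)).2 (hYC m)
    have h1 : Cmp C M1 (act (τ m) (Y m)) (act (τ m) p) := (f4 _ _ _ _ (hτΓ m)).2 hm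
    have h2 : Cmp C M1 (act (τ m) p) (act (τ m) (Y m)) := f1 _ _ _ hτYC hτp h1
    have h3 := f2 _ _ _ _ _ hM10 hM hτp hτYC (hYC m) h2 (hcmp2 m)
    exact f2 _ _ _ _ _ (mul_nonneg hM10 hM) hM10 hτp (hYC m) hp h3 hm
  obtain ⟨N, hN⟩ := eventually_atTop.1 hev2
  refine (hfin.union ((Finset.range N).finite_toSet.image τ)).subset ?_
  rintro _ ⟨m, rfl⟩
  rcases lt_or_ge m N with hm | hm
  · exact Or.inr ⟨m, by simpa using hm, rfl⟩
  · exact Or.inl (hN m hm)

end Pool.Agent.PFB.H41
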