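import Pool.Agent.PFB.StmtsG

set_option autoImplicit false

/-!
# Squad PFB, row G_BPX: existence of a biproximal element
-/

open Matrix Filter Topology

namespace Pool.Agent.PFB.H41

open Pool.Agent.PFS Pool.Agent.PFB

section lin

variable {n : ℕ}

/-- scaled action as a linear map -/
noncomputable def lm (t : ℝ) (γ : GL (Fin n) ℝ) : V n →ₗ[ℝ] V n :=
  t • Matrix.mulVecLin (γ : Matrix (Fin n) (Fin n) ℝ)

theorem lm_apply (t : ℝ) (γ : GL (Fin n) ℝ) (v : V n) : lm t γ v = t • act γ v := rfl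

theorem lm_cont (t : ℝ) (γ : GL (Fin n) ℝ) : Continuous (lm t γ) :=
  (CC.act_continuous γ).const_smul t

theorem lm_inv {t : ℝ} (ht : 0 < t) (γ : GL (Fin n) ℝ) (v : V n) :
    lm t⁻¹ γ⁻¹ (lm t γ v) = v := by
  rw [lm_apply, lm_apply, CC.act_smul, CC.act_inv_act, smul_smul, inv_mul_cancel₀ ht.ne', one_smul]

theorem lm_inv' {t : ℝ} (ht : 0 < t) (γ : GL (Fin n) ℝ) (v : V n) :
    lm t γ (lm t⁻¹ γ⁻¹ v) = v := by
  rw [lm_apply, lm_apply, CC.act_smul, CC.act_act_inv, smul_smul, mul_inv_cancel₀ ht.ne', one_smul]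

variable {C : Set (V n)} {Γ : Subgroup (GL (Fin n) ℝ)}

theorem lm_cl (h : CC C Γ) {t : ℝ} (ht : 0 < t) {γ : GL (Fin n) ℝ} (hγ : γ ∈ Γ) {v : V n} :
    lm t γ v ∈ closure C ↔ v ∈ closure C := h.sact_cl_iff hγ ht

theorem no_low (h : CC C Γ) {γ : GL (Fin n) ℝ} (hγ : γ ∈ Γ) {t : ℝ} (ht : 0 < t) {x y : V n}
    {p q M : ℝ} (hp : 0 < p) (hpq : p < q) (hx : lm t γ x = p • x) (hy : lm t γ y = q • y)
    (hyC : y ∈ closure C) (hy0 : y ≠ 0) (hM : M • x - y ∈ closure C) : False := by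
  have hq : 0 < q := hp.trans hpq
  have hk : ∀ k : ℕ, (M * (p / q) ^ k) • x - y ∈ closure C := by
    intro k
    induction k with
    | zero => simpa using hM
    | succ k ih =>
      have h1 := (lm_cl h ht hγ).2 ih
      rw [map_sub, map_smul, hx, hy] at h1
      have h2 := h.toPCone.cl_smul h1 (inv_pos.2 hq).le
      have e : q⁻¹ • ((M * (p / q) ^ k) • p • x - q • y) = (M * (p / q) ^ (k + 1)) • x - y := by
        rw [smul_sub, smul_smul, smul_smul, smul_smul, inv_mul_cancel₀ hq.ne', one_smul]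
        congr 2
        rw [pow_succ]
        ring
      rwa [e] at h2
  have hlim : Tendsto (fun k : ℕ => (M * (p / q) ^ k) • x - y) atTop (𝓝 ((M * 0) • x - y)) := by
    have h1 : Tendsto (fun k : ℕ => (p / q) ^ k) atTop (𝓝 0) :=
      tendsto_pow_atTop_nhds_zero_of_lt_one (by positivity) ((div_lt_one hq).2 hpq)
    exact ((h1.const_mul M).smul_const x).sub tendsto_const_nhds
  rw [mul_zero, zero_smul, zero_sub] at hlim
  have h3 : -y ∈ closure C := isClosed_closure.mem_of_tendsto hlim (Eventually.of_forall hk)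
  exact hy0 (h.toPCone.salient y hyC h3)

theorem lm_eig_inv {t : ℝ} (ht : 0 < t) {γ : GL (Fin n) ℝ} {x : V n} {p : ℝ} (hp : 0 < p)
    (hx : lm t γ x = p • x) : lm t⁻¹ γ⁻¹ x = p⁻¹ • x := by
  have h1 := congrArg (lm t⁻¹ γ⁻¹) hx
  rw [lm_inv ht, map_smul] at h1
  have h2 : p⁻¹ • x = p⁻¹ • p • lm t⁻¹ γ⁻¹ x := congrArg (fun v => p⁻¹ • v) h1
  rw [smul_smul, inv_mul_cancel₀ hp.ne', one_smul] at h2
  exact h2.symm

end lin

/-- facts on one box -/
theorem box_facts (hFCE : FceStmt) (hLIN : LinStmt) {n : ℕ} {C : Set (V n)}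
    {Γ : Subgroup (GL (Fin n) ℝ)} (h : CC C Γ) {K d : ℕ} {T : (Fin (K + 2) → V n) → Prop}
    (hT : BFam C Γ K d T) {v : Fin (K + 2) → V n} (hv : T v) :
    LinearIndependent ℝ ![v 0, v 1] ∧ v 0 + v 1 ∈ closure C ∧ v 0 + v 1 ≠ 0 ∧
    v 0 ∈ closure (EF C v) ∧ v 0 ∉ EF C v ∧ v 1 ∈ closure (EF C v) ∧ v 1 ∉ EF C v := by
  have hPC := h.toPCone
  have hl := hLIN n C hPC _ v (hT.pes v hv).1
  have hinj : Function.Injective (![0, 1] : Fin 2 → Fin (K + 2)) := by
    intro a b hab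
    fin_cases a <;> fin_cases b <;> simp at hab ⊢
  have h2 := hl.comp _ hinj
  have e : v ∘ (![0, 1] : Fin 2 → Fin (K + 2)) = ![v 0, v 1] := by
    ext i
    fin_cases i <;> rfl
  rw [e] at h2
  have h0 : v 0 ∈ closure C := (hT.pes v hv).1.cl 0
  have h1 : v 1 ∈ closure C := (hT.pes v hv).1.cl 1
  have hp := LinearIndependent.pair_iff.1 h2
  have hne : v 0 + v 1 ≠ 0 := by
    intro h3
    have := hp 1 1 (by rw [one_smul, one_smul]; exact h3)
    exact one_ne_zero this.1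
  have hx := hPC.cl_add h0 h1
  obtain ⟨f1, -, -, -, -, f6⟩ := hFCE n C hPC _ hx hne
  refine ⟨h2, hx, hne, ?_, ?_, ?_, ?_⟩
  · refine f6 _ (subset_closure f1) _ h0 1 ?_
    rw [one_smul, add_sub_cancel_left]
    exact h1
  · rintro ⟨ε, hε, -, h4⟩
    have h5 : v 0 - ε • v 1 ∈ closure C := by
      have := hPC.cl_add h4 (hPC.cl_smul h0 hε.le)
      have e2 : v 0 - ε • (v 0 + v 1) + ε • v 0 = v 0 - ε • v 1 := by
        rw [smul_add]
        abel
      rwa [e2] at this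
    obtain ⟨c, -, hc⟩ := hT.ext v hv 0 (v 1) h1 ε⁻¹ (by
      have := hPC.cl_smul h5 (inv_pos.2 hε).le
      rwa [smul_sub, smul_smul, inv_mul_cancel₀ hε.ne', one_smul] at this)
    have := hp (-c) 1 (by rw [one_smul, neg_smul, ← hc, neg_add_cancel])
    exact one_ne_zero this.2
  · refine f6 _ (subset_closure f1) _ h1 1 ?_
    rw [one_smul, add_sub_cancel_right]
    exact h0
  · rintro ⟨ε, hε, -, h4⟩
    have h5 : v 1 - ε • v 0 ∈ closure C := by
      have := hPC.cl_add h4 (hPC.cl_smul h1 hε.le)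
      have e2 : v 1 - ε • (v 0 + v 1) + ε • v 1 = v 1 - ε • v 0 := by
        rw [smul_add]
        abel
      rwa [e2] at this
    obtain ⟨c, -, hc⟩ := hT.ext v hv 1 (v 0) h0 ε⁻¹ (by
      have := hPC.cl_smul h5 (inv_pos.2 hε).le
      rwa [smul_sub, smul_smul, inv_mul_cancel₀ hε.ne', one_smul] at this)
    have := hp 1 (-c) (by rw [one_smul, neg_smul, ← hc, add_neg_cancel])
    exact one_ne_zero this.1

/-- points converging inside an open face are comparable with a fixed point of the face -/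
theorem face_cmp (hFPC : FpcStmt) {n : ℕ} {C : Set (V n)} (hPC : PCone C) {x y : V n}
    (hx : x ∈ closure C) (hx0 : x ≠ 0) (hsub : Face C x ⊆ closure C) (hxx : x ∈ Face C x)
    (hy : y ∈ Face C x) {u : ℕ → V n} (hu : ∀ m, u m ∈ Face C x)
    (hlim : Tendsto u atTop (𝓝 x)) :
    ∃ M : ℝ, 0 < M ∧ ∀ᶠ m in atTop, M • u m - y ∈ closure C ∧ M • y - u m ∈ closure C := by
  obtain ⟨ι, hinj, hran, hF, -⟩ := hFPC n C hPC x hx hx0 _ rfl
  obtain ⟨κ, hκ⟩ := ι.exists_leftInverse_of_injective (LinearMap.ker_eq_bot.2 hinj)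
  have hκι : ∀ z, κ (ι z) = z := fun z => by
    have := LinearMap.congr_fun hκ z
    simpa using this
  have hrange : ∀ z ∈ Face C x, ι (κ z) = z := by
    intro z hz
    have h1 : z ∈ LinearMap.range ι := by
      rw [hran]
      exact Submodule.subset_span hz
    obtain ⟨z', rfl⟩ := h1
    rw [hκι]
  have hκc : Continuous κ := κ.continuous_of_finiteDimensional
  have hmem : ∀ z ∈ Face C x, κ z ∈ ι ⁻¹' Face C x := by
    intro z hz
    show ι (κ z) ∈ Face C x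
    rw [hrange z hz]
    exact hz
  have hu' : Tendsto (fun m => κ (u m)) atTop (𝓝 (κ x)) := (hκc.tendsto x).comp hlim
  obtain ⟨M1, hM1, h1⟩ := hF.absorb (hmem x hxx) (κ y)
  obtain ⟨M2, hM2, h2⟩ := hF.absorb (hmem y hy) (κ x)
  have hsq := hF.squeeze (hmem x hxx) hu' (M := 2) (by norm_num)
  have hin : ∀ z, z ∈ closure (ι ⁻¹' Face C x) → ι z ∈ closure C := by
    intro z hz
    have h3 : ι z ∈ closure (Face C x) :=
      map_mem_closure (ι.continuous_of_finiteDimensional) hz (fun v hv => hv)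
    exact (closure_minimal hsub isClosed_closure) h3
  refine ⟨2 * M1 + 2 * M2, by positivity, ?_⟩
  filter_upwards [hsq] with m hm
  obtain ⟨hm1, hm2⟩ := hm
  have huF : κ (u m) ∈ ι ⁻¹' Face C x := hmem _ (hu m)
  have hyF : κ y ∈ ι ⁻¹' Face C x := hmem _ hy
  constructor
  · have h3 : (2 * M1 + 2 * M2) • κ (u m) - κ y ∈ closure (ι ⁻¹' Face C x) := by
      have h4 := hF.cl_add (hF.cl_add (hF.cl_smul (subset_closure hm2) hM1.le)
        (subset_closure h1)) (hF.cl_smul (subset_closure huF) (by positivity : 0 ≤ 2 * M2))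
      have e : M1 • ((2 : ℝ) • κ (u m) - κ x) + (M1 • κ x - κ y) + (2 * M2) • κ (u m) =
          (2 * M1 + 2 * M2) • κ (u m) - κ y := by
        rw [smul_sub, smul_smul, add_smul, mul_comm M1 2]
        abel
      rwa [e] at h4
    have h5 := hin _ h3
    rwa [map_sub, map_smul, hrange _ (hu m), hrange _ hy] at h5
  · have h3 : (2 * M1 + 2 * M2) • κ y - κ (u m) ∈ closure (ι ⁻¹' Face C x) := by
      have h4 := hF.cl_add (hF.cl_add (hF.cl_smul (subset_closure h2) (by norm_num : (0:ℝ) ≤ 2))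
        (subset_closure hm1)) (hF.cl_smul (subset_closure hyF) (by positivity : 0 ≤ 2 * M1))
      have e : (2 : ℝ) • (M2 • κ y - κ x) + ((2 : ℝ) • κ x - κ (u m)) + (2 * M1) • κ y =
          (2 * M1 + 2 * M2) • κ y - κ (u m) := by
        rw [smul_sub, smul_smul, add_smul]
        abel
      rwa [e] at h4
    have h5 := hin _ h3
    rwa [map_sub, map_smul, hrange _ (hu m), hrange _ hy] at h5

theorem bpx (hFCE : FceStmt) (hFPC : FpcStmt) (hZBX : ZbxStmt) (hBIP : BipStmt)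
    (hLIN : LinStmt) : BpxStmt := by
  intro n C Γ h K d T hT hD hex
  obtain ⟨w, hw⟩ := hex
  have hPC := h.toPCone
  obtain ⟨hwi, hwx, hwx0, hw0c, hw0n, hw1c, hw1n⟩ := box_facts hFCE hLIN h hT hw
  obtain ⟨φ, g, s, W, hφ, hg, hs, hW, hlim, hface, hap⟩ := hZBX n C Γ h K d T hT hD w hw
    (fun m i => if i = 0 then Real.exp m else if i = 1 then Real.exp (-m) else 1) (by
      intro m i
      split_ifs <;> positivity)
  obtain ⟨hWi, hWx, hWx0, hW0c, hW0n, hW1c, hW1n⟩ := box_facts hFCE hLIN h hT hW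
  obtain ⟨e, he⟩ : ∃ e : ℕ → ℝ, e = fun m => Real.exp (φ m) := ⟨_, rfl⟩
  have hepos : ∀ m, 0 < e m := fun m => by rw [he]; exact Real.exp_pos _
  have l0 : Tendsto (fun m => lm (s m) (g m) (e m • w 0)) atTop (𝓝 (W 0)) := by
    have h0 := hlim 0
    rw [he]
    refine h0.congr fun m => ?_
    rw [if_pos rfl]
    rfl
  have l1 : Tendsto (fun m => lm (s m) (g m) ((e m)⁻¹ • w 1)) atTop (𝓝 (W 1)) := by
    have h0 := hlim 1
    rw [he]
    refine h0.congr fun m => ?_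
    rw [if_neg (by simp : ¬ (1 : Fin (K + 2)) = 0), if_pos rfl, Real.exp_neg]
    rfl
  have hetop : Tendsto e atTop atTop := by
    rw [he]
    exact Real.tendsto_exp_atTop.comp (tendsto_natCast_atTop_atTop.comp hφ.tendsto_atTop)
  have heinv : Tendsto (fun m => (e m)⁻¹) atTop (𝓝 0) := hetop.inv_tendsto_atTop
  -- a fixed large index
  obtain ⟨m0, hm0⟩ : ∃ m0, LinearIndependent ℝ ![lm (s m0) (g m0) (w 0), W 1] := by
    have h1 : Tendsto (fun m => (![lm (s m) (g m) (e m • w 0), W 1] : Fin 2 → V n)) atTop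
        (𝓝 ![W 0, W 1]) := by
      rw [tendsto_pi_nhds]
      intro i
      fin_cases i
      · exact l0
      · exact tendsto_const_nhds
    have h2 : IsOpen {f : Fin 2 → V n | LinearIndependent ℝ f} := isOpen_setOfPred_linearIndependent
    obtain ⟨m, hm⟩ := (h1.eventually (h2.mem_nhds hWi)).exists
    refine ⟨m, ?_⟩
    rw [LinearIndependent.pair_iff] at hm ⊢
    intro α β hαβ
    have h3 := hm (α / e m) β (by
      rw [map_smul, smul_smul, div_mul_cancel₀ _ (hepos m).ne']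
      exact hαβ)
    refine ⟨?_, h3.2⟩
    have := h3.1
    rw [div_eq_zero_iff] at this
    exact this.resolve_right (hepos m).ne'
  obtain ⟨x0, hx0⟩ : ∃ x0, x0 = w 0 + w 1 := ⟨_, rfl⟩
  obtain ⟨f1, f2, -, f4, f5, f6⟩ := hFCE n C hPC _ hwx hwx0
  obtain ⟨F1, F2, -, F4, F5, F6⟩ := hFCE n C hPC _ hWx hWx0
  -- the maps
  have hHF : ∀ m y, lm (s m0)⁻¹ (g m0)⁻¹ (lm (s m) (g m) y) ∈ EF C w ↔ y ∈ EF C w := by
    intro m y
    have h1 := hface m0 (lm (s m0)⁻¹ (g m0)⁻¹ (lm (s m) (g m) y))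
    have h2 := hface m y
    rw [← lm_apply, lm_inv' (hs m0)] at h1
    exact h1.symm.trans h2
  have hHF' : ∀ m y, lm (s m)⁻¹ (g m)⁻¹ (lm (s m0) (g m0) y) ∈ EF C w ↔ y ∈ EF C w := by
    intro m y
    have h1 := hface m (lm (s m)⁻¹ (g m)⁻¹ (lm (s m0) (g m0) y))
    have h2 := hface m0 y
    rw [← lm_apply, lm_inv' (hs m)] at h1
    exact h1.symm.trans h2
  -- the point b
  obtain ⟨b, hb⟩ : ∃ b, b = lm (s m0)⁻¹ (g m0)⁻¹ (W 1) := ⟨_, rfl⟩
  have hbc : b ∈ closure (EF C w) := by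
    rw [hb]
    refine map_mem_closure (lm_cont _ _) hW1c fun y hy => ?_
    refine (hface m0 _).1 ?_
    rw [← lm_apply, lm_inv' (hs m0)]
    exact hy
  have hbn : b ∉ EF C w := by
    intro h1
    have h2 := (hface m0 _).2 h1
    rw [← lm_apply, hb, lm_inv' (hs m0)] at h2
    exact hW1n h2
  have hblim : Tendsto (fun m => (e m)⁻¹ • lm (s m0)⁻¹ (g m0)⁻¹ (lm (s m) (g m) x0)) atTop
      (𝓝 b) := by
    have h1 : Tendsto (fun m => ((e m)⁻¹ * (e m)⁻¹) • lm (s m) (g m) (e m • w 0) +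
        lm (s m) (g m) ((e m)⁻¹ • w 1)) atTop (𝓝 (((0 : ℝ) * 0) • W 0 + W 1)) :=
      ((heinv.mul heinv).smul l0).add l1
    rw [mul_zero, zero_smul, zero_add] at h1
    have h2 := ((lm_cont (s m0)⁻¹ (g m0)⁻¹).tendsto (W 1)).comp h1
    rw [← hb] at h2
    refine h2.congr fun m => ?_
    show lm (s m0)⁻¹ (g m0)⁻¹ (((e m)⁻¹ * (e m)⁻¹) • lm (s m) (g m) (e m • w 0) +
      lm (s m) (g m) ((e m)⁻¹ • w 1)) = _
    rw [hx0]
    simp only [map_add, map_smul, smul_add, smul_smul]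
    rw [mul_assoc, inv_mul_cancel₀ (hepos m).ne', mul_one]
  -- the point a
  have hy : lm (s m0) (g m0) x0 ∈ EF C W := (hface m0 x0).2 (by rw [hx0]; exact f1)
  obtain ⟨u, hu⟩ : ∃ u : ℕ → V n, u = fun m => lm (s m) (g m) (e m • w 0) +
    lm (s m) (g m) ((e m)⁻¹ • w 1) := ⟨_, rfl⟩
  have hulim : Tendsto u atTop (𝓝 (W 0 + W 1)) := by
    rw [hu]
    exact l0.add l1
  have hw0C : w 0 ∈ closure C := (hT.pes w hw).1.cl 0
  have hw1C : w 1 ∈ closure C := (hT.pes w hw).1.cl 1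
  have hcomb : ∀ α β : ℝ, 0 < α → 0 < β → α • w 0 + β • w 1 ∈ EF C w := by
    intro α β hα hβ
    refine ⟨(α + β + α⁻¹ + β⁻¹)⁻¹, by positivity, ?_, ?_⟩
    · have e1 : w 0 + w 1 - (α + β + α⁻¹ + β⁻¹)⁻¹ • (α • w 0 + β • w 1) =
          (1 - (α + β + α⁻¹ + β⁻¹)⁻¹ * α) • w 0 + (1 - (α + β + α⁻¹ + β⁻¹)⁻¹ * β) • w 1 := by
        rw [smul_add, smul_smul, smul_smul, sub_smul, sub_smul, one_smul, one_smul]
        abel
      rw [e1]
      have hα' : 0 < α⁻¹ := inv_pos.2 hα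
      have hβ' : 0 < β⁻¹ := inv_pos.2 hβ
      refine hPC.cl_add (hPC.cl_smul hw0C ?_) (hPC.cl_smul hw1C ?_)
      · rw [sub_nonneg, inv_mul_le_iff₀ (by positivity)]
        linarith
      · rw [sub_nonneg, inv_mul_le_iff₀ (by positivity)]
        linarith
    · have e1 : α • w 0 + β • w 1 - (α + β + α⁻¹ + β⁻¹)⁻¹ • (w 0 + w 1) =
          (α - (α + β + α⁻¹ + β⁻¹)⁻¹) • w 0 + (β - (α + β + α⁻¹ + β⁻¹)⁻¹) • w 1 := by
        rw [smul_add, sub_smul, sub_smul]
        abel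
      rw [e1]
      have hα' : 0 < α⁻¹ := inv_pos.2 hα
      have hβ' : 0 < β⁻¹ := inv_pos.2 hβ
      refine hPC.cl_add (hPC.cl_smul hw0C ?_) (hPC.cl_smul hw1C ?_)
      · rw [sub_nonneg, inv_le_comm₀ (by positivity) hα]
        linarith
      · rw [sub_nonneg, inv_le_comm₀ (by positivity) hβ]
        linarith
  have huF : ∀ m, u m ∈ EF C W := by
    intro m
    rw [hu]
    simp only
    rw [← map_add]
    exact (hface m _).2 (hcomb _ _ (hepos m) (inv_pos.2 (hepos m)))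
  have hsubW : Face C (W 0 + W 1) ⊆ closure C := fun z hz =>
    ((F5 z).1 (subset_closure hz)).1
  obtain ⟨M, hM, hMev⟩ := face_cmp hFPC hPC hWx hWx0 hsubW F1 hy huF hulim
  obtain ⟨A, hA⟩ : ∃ A : ℕ → V n, A = fun m =>
    (e m)⁻¹ • lm (s m)⁻¹ (g m)⁻¹ (lm (s m0) (g m0) x0) := ⟨_, rfl⟩
  obtain ⟨z, hz⟩ : ∃ z : ℕ → V n, z = fun m => w 0 + ((e m)⁻¹ * (e m)⁻¹) • w 1 := ⟨_, rfl⟩
  have hzlim : Tendsto z atTop (𝓝 (w 0)) := by
    have h1 : Tendsto z atTop (𝓝 (w 0 + ((0 : ℝ) * 0) • w 1)) := by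
      rw [hz]
      exact tendsto_const_nhds.add ((heinv.mul heinv).smul_const (w 1))
    rwa [mul_zero, zero_smul, add_zero] at h1
  have hzu : ∀ m, (e m)⁻¹ • lm (s m)⁻¹ (g m)⁻¹ (u m) = z m := by
    intro m
    rw [hu, hz]
    simp only
    rw [← map_add, lm_inv (hs m), smul_add, smul_smul, smul_smul,
      inv_mul_cancel₀ (hepos m).ne', one_smul]
  have hAcl : ∀ m, A m ∈ closure C := by
    intro m
    rw [hA]
    refine hPC.cl_smul ?_ (inv_pos.2 (hepos m)).le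
    rw [lm_cl h (inv_pos.2 (hs m)) (Γ.inv_mem (hg m)), lm_cl h (hs m0) (hg m0), hx0]
    exact hwx
  have hcmpA : ∀ᶠ m in atTop, M • z m - A m ∈ closure C ∧ M • A m - z m ∈ closure C := by
    filter_upwards [hMev] with m hm
    obtain ⟨h1, h2⟩ := hm
    have k1 := hPC.cl_smul ((lm_cl h (inv_pos.2 (hs m)) (Γ.inv_mem (hg m))).2 h1)
      (inv_pos.2 (hepos m)).le
    have k2 := hPC.cl_smul ((lm_cl h (inv_pos.2 (hs m)) (Γ.inv_mem (hg m))).2 h2)
      (inv_pos.2 (hepos m)).le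
    rw [map_sub, map_smul, smul_sub, smul_comm (e m)⁻¹ M, hzu] at k1
    rw [map_sub, map_smul, smul_sub, smul_comm (e m)⁻¹ M, hzu] at k2
    rw [hA]
    exact ⟨k1, k2⟩
  obtain ⟨B, hB, hBn⟩ := hPC.normal
  have hbdd : ∀ᶠ m in atTop, A m ∈ Metric.closedBall (0 : V n) (B * (M * (‖w 0‖ + 1))) := by
    have h1 : ∀ᶠ m in atTop, ‖z m‖ < ‖w 0‖ + 1 :=
      hzlim.norm.eventually_lt_const (by linarith)
    filter_upwards [hcmpA, h1] with m hm hm1
    rw [mem_closedBall_zero_iff]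
    refine (hBn _ _ (hAcl m) hm.1).trans (mul_le_mul_of_nonneg_left ?_ hB.le)
    rw [norm_smul, Real.norm_of_nonneg hM.le]
    exact mul_le_mul_of_nonneg_left hm1.le hM.le
  obtain ⟨a, -, ψ, hψ, hψlim⟩ := tendsto_subseq_of_frequently_bounded
    (Metric.isBounded_closedBall) hbdd.frequently
  have hacl : a ∈ closure C := isClosed_closure.mem_of_tendsto hψlim
    (Eventually.of_forall fun m => hAcl _)
  have ha1 : M • w 0 - a ∈ closure C := by
    have h1 : Tendsto (fun m => M • z (ψ m) - A (ψ m)) atTop (𝓝 (M • w 0 - a)) :=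
      ((hzlim.comp hψ.tendsto_atTop).const_smul M).sub hψlim
    exact isClosed_closure.mem_of_tendsto h1
      ((hψ.tendsto_atTop.eventually hcmpA).mono fun m hm => hm.1)
  have ha2 : M • a - w 0 ∈ closure C := by
    have h1 : Tendsto (fun m => M • A (ψ m) - z (ψ m)) atTop (𝓝 (M • a - w 0)) :=
      (hψlim.const_smul M).sub (hzlim.comp hψ.tendsto_atTop)
    exact isClosed_closure.mem_of_tendsto h1
      ((hψ.tendsto_atTop.eventually hcmpA).mono fun m hm => hm.2)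
  obtain ⟨c, hc, hac⟩ := hT.ext w hw 0 a hacl M ha1
  have hw0ne : w 0 ≠ 0 := by
    have := hwi.ne_zero 0
    simpa using this
  have hc0 : c ≠ 0 := by
    rintro rfl
    rw [zero_smul] at hac
    rw [hac, smul_zero, zero_sub] at ha2
    exact hw0ne (hPC.salient _ hw0C ha2)
  have hcpos : 0 < c := lt_of_le_of_ne hc (Ne.symm hc0)
  have hacF : a ∈ closure (EF C w) := by
    refine (f5 a).2 ⟨hacl, ?_⟩
    rw [hac]
    exact Submodule.smul_mem _ _ ((f5 _).1 hw0c).2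
  have hanF : a ∉ EF C w := by
    rintro ⟨ε, hε, h1, h2⟩
    apply hw0n
    refine ⟨min (ε * c) (ε / c), by positivity, ?_, ?_⟩
    · have e1 : w 0 + w 1 - min (ε * c) (ε / c) • w 0 =
          (w 0 + w 1 - ε • a) + (ε * c - min (ε * c) (ε / c)) • w 0 := by
        rw [hac, smul_smul, sub_smul]
        abel
      rw [e1]
      exact hPC.cl_add h1 (hPC.cl_smul hw0C (sub_nonneg.2 (min_le_left _ _)))
    · have e1 : w 0 - min (ε * c) (ε / c) • (w 0 + w 1) =
          c⁻¹ • (a - ε • (w 0 + w 1)) + (ε / c - min (ε * c) (ε / c)) • (w 0 + w 1) := by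
        rw [hac, smul_sub, smul_smul, smul_smul, inv_mul_cancel₀ hcpos.ne', one_smul, sub_smul,
          inv_mul_eq_div]
        abel
      rw [e1]
      exact hPC.cl_add (hPC.cl_smul h2 (inv_pos.2 hcpos).le)
        (hPC.cl_smul hwx (sub_nonneg.2 (min_le_right _ _)))
  have hab : LinearIndependent ℝ ![a, b] := by
    rw [LinearIndependent.pair_iff] at hm0 ⊢
    intro α β hαβ
    have h1 := congrArg (lm (s m0) (g m0)) hαβ
    rw [map_add, map_smul, map_smul, map_zero, hac, hb, lm_inv' (hs m0), map_smul, smul_smul] at h1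
    obtain ⟨h2, h3⟩ := hm0 _ _ h1
    exact ⟨(mul_eq_zero.1 h2).resolve_right hc0, h3⟩
  -- coordinates of the face
  obtain ⟨ι, hinj, hran, hF, hFcl⟩ := hFPC n C hPC _ hwx hwx0 d (hT.dim w hw)
  obtain ⟨κ, hκ⟩ := ι.exists_leftInverse_of_injective (LinearMap.ker_eq_bot.2 hinj)
  have hκι : ∀ z, κ (ι z) = z := fun z => by
    have := LinearMap.congr_fun hκ z
    simpa using this
  have hrange : ∀ v ∈ Submodule.span ℝ (Face C (w 0 + w 1)), ι (κ v) = v := by
    intro v hv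
    rw [← hran] at hv
    obtain ⟨z', rfl⟩ := hv
    rw [hκι]
  have hκc : Continuous κ := κ.continuous_of_finiteDimensional
  have hιmem : ∀ v, ι v ∈ Submodule.span ℝ (Face C (w 0 + w 1)) := by
    intro v
    rw [← hran]
    exact ⟨v, rfl⟩
  have hspan1 : ∀ m, ∀ v ∈ Submodule.span ℝ (Face C (w 0 + w 1)),
      lm (s m0)⁻¹ (g m0)⁻¹ (lm (s m) (g m) v) ∈ Submodule.span ℝ (Face C (w 0 + w 1)) := by
    intro m v hv
    have h1 : Submodule.span ℝ (Face C (w 0 + w 1)) ≤ (Submodule.span ℝ (Face C (w 0 + w 1))).comap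
        ((lm (s m0)⁻¹ (g m0)⁻¹).comp (lm (s m) (g m))) :=
      Submodule.span_le.2 fun y hy => Submodule.subset_span ((hHF m y).2 hy)
    exact h1 hv
  have hspan2 : ∀ m, ∀ v ∈ Submodule.span ℝ (Face C (w 0 + w 1)),
      lm (s m)⁻¹ (g m)⁻¹ (lm (s m0) (g m0) v) ∈ Submodule.span ℝ (Face C (w 0 + w 1)) := by
    intro m v hv
    have h1 : Submodule.span ℝ (Face C (w 0 + w 1)) ≤ (Submodule.span ℝ (Face C (w 0 + w 1))).comap
        ((lm (s m)⁻¹ (g m)⁻¹).comp (lm (s m0) (g m0))) :=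
      Submodule.span_le.2 fun y hy => Submodule.subset_span ((hHF' m y).2 hy)
    exact h1 hv
  obtain ⟨L, hL1, hL2⟩ : ∃ L : ℕ → (V d ≃ₗ[ℝ] V d),
      (∀ m v, ι (L m v) = lm (s m0)⁻¹ (g m0)⁻¹ (lm (s m) (g m) (ι v))) ∧
      (∀ m v, ι ((L m).symm v) = lm (s m)⁻¹ (g m)⁻¹ (lm (s m0) (g m0) (ι v))) := by
    have h1 : ∀ m v, ι (κ (lm (s m0)⁻¹ (g m0)⁻¹ (lm (s m) (g m) (ι v)))) =
        lm (s m0)⁻¹ (g m0)⁻¹ (lm (s m) (g m) (ι v)) := fun m v =>
      hrange _ (hspan1 m _ (hιmem v))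
    have h2 : ∀ m v, ι (κ (lm (s m)⁻¹ (g m)⁻¹ (lm (s m0) (g m0) (ι v)))) =
        lm (s m)⁻¹ (g m)⁻¹ (lm (s m0) (g m0) (ι v)) := fun m v =>
      hrange _ (hspan2 m _ (hιmem v))
    refine ⟨fun m => LinearEquiv.ofLinearMap
      (κ.comp (((lm (s m0)⁻¹ (g m0)⁻¹).comp (lm (s m) (g m))).comp ι))
      (κ.comp (((lm (s m)⁻¹ (g m)⁻¹).comp (lm (s m0) (g m0))).comp ι)) ?_ ?_,
      fun m v => h1 m v, fun m v => h2 m v⟩
    · apply LinearMap.ext
      intro v
      show κ (lm (s m0)⁻¹ (g m0)⁻¹ (lm (s m) (g m)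
        (ι (κ (lm (s m)⁻¹ (g m)⁻¹ (lm (s m0) (g m0) (ι v))))))) = v
      rw [h2, lm_inv' (hs m), lm_inv (hs m0), hκι]
    · apply LinearMap.ext
      intro v
      show κ (lm (s m)⁻¹ (g m)⁻¹ (lm (s m0) (g m0)
        (ι (κ (lm (s m0)⁻¹ (g m0)⁻¹ (lm (s m) (g m) (ι v))))))) = v
      rw [h1, lm_inv' (hs m0), lm_inv (hs m), hκι]
  have hstrict : Strict (ι ⁻¹' Face C (w 0 + w 1)) := by
    intro y1 hy1 y2 hy2 hy12
    show ι (y1 + y2) ∈ Face C (w 0 + w 1)
    rw [map_add]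
    refine hT.strict w hw _ ((hFcl _).1 hy1) _ ((hFcl _).1 hy2) ?_
    rw [LinearIndependent.pair_iff] at hy12 ⊢
    intro α β hαβ
    rw [← map_smul, ← map_smul, ← map_add] at hαβ
    exact hy12 _ _ (hinj (hαβ.trans (map_zero ι).symm))
  have haS := ((f5 a).1 hacF).2
  have hbS := ((f5 b).1 hbc).2
  have hxS : x0 ∈ Submodule.span ℝ (Face C (w 0 + w 1)) := by
    rw [hx0]
    exact Submodule.subset_span f1
  obtain ⟨m, a', b', lam, mu, ha', hb', hab', hlam, hlm, hea, heb⟩ := hBIP d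
    (ι ⁻¹' Face C (w 0 + w 1)) hF hstrict (fun m => L (ψ m)) (fun m => (e (ψ m))⁻¹)
    (fun m => (e (ψ m))⁻¹) (κ x0) (κ a) (κ b)
    (fun m x => by
      show ι (L (ψ m) x) ∈ Face C (w 0 + w 1) ↔ ι x ∈ Face C (w 0 + w 1)
      rw [hL1]
      exact hHF _ _)
    (fun m => inv_pos.2 (hepos _)) (fun m => inv_pos.2 (hepos _))
    (by
      show ι (κ x0) ∈ Face C (w 0 + w 1)
      rw [hrange _ hxS, hx0]
      exact f1)
    ((hFcl _).2 (by rw [hrange _ haS]; exact hacF))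
    (by
      show ι (κ a) ∉ Face C (w 0 + w 1)
      rw [hrange _ haS]
      exact hanF)
    ((hFcl _).2 (by rw [hrange _ hbS]; exact hbc))
    (by
      show ι (κ b) ∉ Face C (w 0 + w 1)
      rw [hrange _ hbS]
      exact hbn)
    (by
      rw [LinearIndependent.pair_iff] at hab ⊢
      intro α β hαβ
      have h1 := congrArg ι hαβ
      rw [map_add, map_smul, map_smul, map_zero, hrange _ haS, hrange _ hbS] at h1
      exact hab _ _ h1)
    (by
      have h1 := (hκc.tendsto b).comp (hblim.comp hψ.tendsto_atTop)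
      refine h1.congr fun m => ?_
      show κ ((e (ψ m))⁻¹ • lm (s m0)⁻¹ (g m0)⁻¹ (lm (s (ψ m)) (g (ψ m)) x0)) = _
      apply hinj
      rw [map_smul κ, map_smul ι, map_smul ι, hL1, hrange _ (hspan1 _ _ hxS), hrange _ hxS])
    (by
      have h1 := (hκc.tendsto a).comp hψlim
      refine h1.congr fun m => ?_
      show κ (A (ψ m)) = _
      rw [hA]
      apply hinj
      simp only
      rw [map_smul κ, map_smul ι, map_smul ι, hL2, hrange _ (hspan2 _ _ hxS), hrange _ hxS])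
  -- back to the original space
  obtain ⟨m1, hm1⟩ : ∃ m1, m1 = ψ m := ⟨_, rfl⟩
  simp only [← hm1] at hea heb
  obtain ⟨α, hα⟩ : ∃ α, α = ι a' := ⟨_, rfl⟩
  obtain ⟨β, hβ⟩ : ∃ β, β = ι b' := ⟨_, rfl⟩
  obtain ⟨t, ht⟩ : ∃ t, t = (s m0)⁻¹ * s m1 := ⟨_, rfl⟩
  obtain ⟨γ, hγ⟩ : ∃ γ : GL (Fin n) ℝ, γ = (g m0)⁻¹ * g m1 := ⟨_, rfl⟩
  have ht0 : 0 < t := by
    rw [ht]
    exact mul_pos (inv_pos.2 (hs m0)) (hs m1)
  have hγΓ : γ ∈ Γ := by
    rw [hγ]
    exact Γ.mul_mem (Γ.inv_mem (hg m0)) (hg m1)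
  have hlmc : ∀ v, lm (s m0)⁻¹ (g m0)⁻¹ (lm (s m1) (g m1) v) = lm t γ v := by
    intro v
    rw [lm_apply, lm_apply, lm_apply, CC.act_smul, smul_smul, ← CC.act_mul, ht, hγ]
  have heα : lm t γ α = lam • α := by
    rw [← hlmc, hα, ← hL1, hea, map_smul]
  have heβ : lm t γ β = mu • β := by
    rw [← hlmc, hβ, ← hL1, heb, map_smul]
  have hαc : α ∈ closure (EF C w) := by
    rw [hα]
    exact (hFcl _).1 ha'
  have hβc : β ∈ closure (EF C w) := by
    rw [hβ]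
    exact (hFcl _).1 hb'
  have hαβ : LinearIndependent ℝ ![α, β] := by
    rw [LinearIndependent.pair_iff] at hab' ⊢
    intro p q hpq
    rw [hα, hβ, ← map_smul, ← map_smul, ← map_add] at hpq
    exact hab' _ _ (hinj (hpq.trans (map_zero ι).symm))
  have hα0 : α ≠ 0 := by
    have := hαβ.ne_zero 0
    simpa using this
  have hβ0 : β ≠ 0 := by
    have := hαβ.ne_zero 1
    simpa using this
  obtain ⟨hαC, hαS⟩ := (f5 α).1 hαc
  obtain ⟨hβC, hβS⟩ := (f5 β).1 hβc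
  have hmu : 0 < mu := hlam.trans hlm
  have hαn : α ∉ EF C w := by
    intro h1
    have h2 := f2 α h1
    obtain ⟨-, -, -, k4, -, -⟩ := hFCE n C hPC α hαC hα0
    rw [h2] at k4
    obtain ⟨M', -, h3, -⟩ := k4 β hβS
    exact no_low h hγΓ ht0 hlam hlm heα heβ hβC hβ0 h3
  have hβn : β ∉ EF C w := by
    intro h1
    have h2 := f2 β h1
    obtain ⟨-, -, -, k4, -, -⟩ := hFCE n C hPC β hβC hβ0
    rw [h2] at k4
    obtain ⟨M', -, h3, -⟩ := k4 α hαS
    exact no_low h (Γ.inv_mem hγΓ) (inv_pos.2 ht0) (inv_pos.2 hmu)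
      ((inv_lt_inv₀ hmu hlam).2 hlm) (lm_eig_inv ht0 hmu heβ) (lm_eig_inv ht0 hlam heα) hαC hα0 h3
  have hactα : act γ α = (lam / t) • α := by
    have h1 := congrArg (fun v => t⁻¹ • v) heα
    simp only [lm_apply] at h1
    rw [smul_smul, inv_mul_cancel₀ ht0.ne', one_smul, smul_smul, inv_mul_eq_div] at h1
    exact h1
  have hactβ : act γ β = (mu / t) • β := by
    have h1 := congrArg (fun v => t⁻¹ • v) heβ
    simp only [lm_apply] at h1
    rw [smul_smul, inv_mul_cancel₀ ht0.ne', one_smul, smul_smul, inv_mul_eq_div] at h1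
    exact h1
  refine ⟨chd α β (fun _ => 1) w, hT.chord w hw α hαc hαn β hβc hβn hαβ _ (fun _ => one_pos),
    γ, hγΓ, lam / t, mu / t, div_pos hlam ht0, div_lt_div_of_pos_right hlm ht0, hactα, hactβ,
    fun j => ?_⟩
  obtain ⟨a1, ha1pos, ha1eq⟩ := hap m1 j
  obtain ⟨a0, ha0pos, ha0eq⟩ := hap m0 j
  have e1 : chd α β (fun _ => 1) w j.succ.succ = w j.succ.succ := by
    show (1 : ℝ) • w j.succ.succ = _
    rw [one_smul]
  rw [e1]
  refine ⟨a1 / (s m1) * (s m0 / a0), by have := hs m1; have := hs m0; positivity, ?_⟩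
  have h1 : act (g m1) (w j.succ.succ) = (a1 / s m1) • W j.succ.succ := by
    have := congrArg (fun v => (s m1)⁻¹ • v) ha1eq
    rw [smul_smul, inv_mul_cancel₀ (hs m1).ne', one_smul, smul_smul, inv_mul_eq_div] at this
    exact this
  have h2 : W j.succ.succ = (s m0 / a0) • act (g m0) (w j.succ.succ) := by
    have := congrArg (fun v => a0⁻¹ • v) ha0eq
    rw [smul_smul, smul_smul, inv_mul_cancel₀ ha0pos.ne', one_smul, inv_mul_eq_div] at this
    exact this.symm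
  rw [hγ, CC.act_mul, h1, h2, smul_smul, CC.act_smul, CC.act_inv_act]

end Pool.Agent.PFB.H41
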